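import Pool.Agent.N147.BN.Final

/-!
# Containments of Brill-Noether loci in large genus
-/

set_option autoImplicit false

namespace Pool.Agent.U81.BN

open Pool.Agent.Helper395.CS hiding genus map_mul map_inv
open Pool.Agent.Helper395.BC
open Pool.Agent.N147.BN

/-- The Brill-Noether number `ρ(g, r, d) = g - (r + 1)(g - d + r)`. -/
def rho (g r d : ℤ) : ℤ := g - (r + 1) * (g - d + r)

/-- The curve with function field `K` carries a `g^r_d`: it has a line bundle `L` of degree `d` with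
`h⁰(L) ≥ r + 1`. -/
def HasSeries (K : Type) [Field K] [Algebra ℂ K] (r d : ℕ) : Prop :=
  ∃ L : LineBundle K, L.degree = d ∧ r + 1 ≤ Module.finrank ℂ (H0 L)

/-- `M^r_{g,d}` is not empty: some curve of genus `g` carries a `g^r_d`. -/
def LocusNonempty (g r d : ℕ) : Prop :=
  ∃ (K : Type) (_ : Field K) (_ : Algebra ℂ K), IsCurve K ∧ genus K = g ∧ HasSeries K r d

/-- `M^r_{g,d}` is contained in `M^s_{g,e}`: every curve of genus `g` with a `g^r_d` has a `g^s_e`. -/
def LocusContained (g r d s e : ℕ) : Prop :=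
  ∀ (K : Type) [Field K] [Algebra ℂ K], IsCurve K → genus K = g → HasSeries K r d → HasSeries K s e

theorem contained_general {g r d s : ℕ} (hs : 1 ≤ s) (hsr : s ≤ r) (hd : 2 * r ≤ d)
    (hg : (d - r + 1).choose 2 < g) : LocusContained g r d s (d - 2 * (r - s)) := by
  intro K _ _ hK hgK ⟨L, hL, hL'⟩
  obtain ⟨M, hM, hM'⟩ := descend hK (by omega) hL hL' (by rw [hgK]; exact hg) (r - s) (by omega)
  refine ⟨M, ?_, ?_⟩
  · rw [hM, hL]
    push_cast [Nat.cast_sub hsr, Nat.cast_sub (show 2 * (r - s) ≤ d by omega)]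
    ring
  · have : r - (r - s) + 1 = s + 1 := by omega
    rwa [this] at hM'

theorem nonempty_general {g r d : ℕ} (hg : 7 ≤ g) (hd : 2 * r ≤ d) : LocusNonempty g r d := by
  obtain ⟨K, i1, i2, hK, hgK, hL⟩ := exists_hyp g hg
  refine ⟨K, i1, i2, hK, hgK, ?_⟩
  obtain ⟨L, hL1, hL2⟩ := hL r
  obtain ⟨M, hM, hM'⟩ := add_points hK (by omega) L (d - 2 * r)
  refine ⟨M, ?_, hL2.trans hM'⟩
  rw [hM, hL1, Nat.cast_sub hd]
  push_cast
  ring

theorem two_choose_sq (m : ℕ) : 2 * (m + 1).choose 2 = m * (m + 1) := by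
  rw [Nat.choose_two_right, Nat.add_sub_cancel]
  rw [Nat.mul_comm (m + 1) m]
  exact Nat.mul_div_cancel' (Nat.even_mul_succ_self m).two_dvd

/-- the numerical conditions -/
theorem numbers {g r d s : ℕ} (hs : 2 ≤ s) (hsr : s + 1 ≤ r) (hd : 2 * r ≤ d)
    (hg : (d - r + 1).choose 2 < g) :
    7 ≤ g ∧ d ≤ g - 1 ∧ d - 2 * (r - s) ≤ g - 1 ∧ rho g r d < 0 ∧
      rho g s (d - 2 * (r - s) : ℕ) < 0 := by
  obtain ⟨m, rfl⟩ : ∃ m, d = r + m := ⟨d - r, by omega⟩
  have hm : r ≤ m := by omega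
  rw [Nat.add_sub_cancel_left] at hg
  have h2 := two_choose_sq m
  have h3 : m * (m + 1) + 2 ≤ 2 * g := by omega
  have h4 : 3 * 4 ≤ m * (m + 1) := Nat.mul_le_mul (by omega) (by omega)
  have h5 : 4 * m ≤ m * (m + 1) := by
    rw [Nat.mul_comm 4 m]
    exact Nat.mul_le_mul_left m (by omega)
  have hmg : 2 * m + 1 ≤ g := by omega
  obtain ⟨t, rfl⟩ : ∃ t, r = s + t := ⟨r - s, by omega⟩
  refine ⟨by omega, by omega, by omega, ?_, ?_⟩
  · unfold rho
    have h6 : (g : ℤ) - ((s + t : ℕ) + m : ℕ) + (s + t : ℕ) = g - m := by push_cast; ring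
    rw [h6]
    have h7 : (4 : ℤ) ≤ ((s + t : ℕ) : ℤ) + 1 := by exact_mod_cast (by omega : 4 ≤ s + t + 1)
    have h8 : (0 : ℤ) < (g : ℤ) - m := by
      have : (m : ℤ) < g := by exact_mod_cast (by omega : m < g)
      linarith
    have h9 : (2 : ℤ) * m + 1 ≤ g := by exact_mod_cast hmg
    nlinarith
  · unfold rho
    have e1 : s + t - s = t := by omega
    rw [e1]
    have e2 : ((s + t + m - 2 * t : ℕ) : ℤ) = (s : ℤ) + m - t := by
      rw [Nat.cast_sub (by omega)]
      push_cast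
      ring
    rw [e2]
    have h6 : (g : ℤ) - ((s : ℤ) + m - t) + s = g - m + t := by ring
    rw [h6]
    have h7 : (3 : ℤ) ≤ (s : ℤ) + 1 := by exact_mod_cast (by omega : 3 ≤ s + 1)
    have h9 : (2 : ℤ) * m + 1 ≤ g := by exact_mod_cast hmg
    have h10 : (0 : ℤ) ≤ t := by positivity
    have h8 : (0 : ℤ) < (g : ℤ) - m + t := by linarith [show (0 : ℤ) ≤ m by positivity]
    nlinarith

end Pool.Agent.U81.BN
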